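import Pool.Agent.E8helper80.AX.DefsG
import Pool.Agent.E8helper80.AX.B1

/-!
# Project AX, piece B2G: the case without the apex, general `M` (helper82)
-/

set_option autoImplicit false

namespace Pool.Agent.E8helper80.AX

open Finset Pool.Agent.TH176.Nag Polynomial

namespace B2G82

/-- a polynomial that vanishes to order `a` at zero and `b` at one, and has degree less than
`a + b` -/
theorem van {F : Type*} [Field F] (P : Polynomial F) (a b : ℕ) (h1 : ∀ k < a, P.coeff k = 0)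
    (h2 : ∀ k < b, (taylor 1 P).coeff k = 0) (h3 : ∀ k, a + b ≤ k → P.coeff k = 0) : P = 0 := by
  by_contra hP
  have d1 : X ^ a ∣ P := X_pow_dvd_iff.2 h1
  have d2 : (X - C (1 : F)) ^ b ∣ P := by
    rw [X_sub_C_pow_dvd_iff, ← taylor_apply, X_pow_dvd_iff]
    exact h2
  have hc : IsCoprime (X : Polynomial F) (X - C (1 : F)) := ⟨1, -1, by rw [C_1]; ring⟩
  have d3 : X ^ a * (X - C (1 : F)) ^ b ∣ P := (hc.pow (m := a) (n := b)).mul_dvd d1 d2
  have e1 := natDegree_le_of_dvd d3 hP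
  rw [natDegree_mul (pow_ne_zero _ X_ne_zero) (pow_ne_zero _ (X_sub_C_ne_zero _)), natDegree_pow,
    natDegree_pow, natDegree_X, natDegree_X_sub_C, mul_one, mul_one] at e1
  have e2 := h3 _ e1
  rw [coeff_natDegree, leadingCoeff_eq_zero] at e2
  exact hP e2

theorem KG_bd {M : ℕ} (hM : 1 ≤ M) : (M : ℝ) < KG M ∧ KG M < M + 1 / 2 := by
  have hM' : (1 : ℝ) ≤ M := by exact_mod_cast hM
  have h1 : (M : ℝ) < √((M * M + 2 * M : ℕ) : ℝ) := by
    rw [Real.lt_sqrt (by linarith)]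
    push_cast
    nlinarith
  have h2 : √((M * M + 2 * M : ℕ) : ℝ) < M + 1 := by
    rw [Real.sqrt_lt' (by linarith)]
    push_cast
    nlinarith
  unfold KG
  constructor <;> linarith

theorem KG_sq (M : ℕ) : 2 * KG M * (KG M - M) = M := by
  have h : √((M * M + 2 * M : ℕ) : ℝ) * √((M * M + 2 * M : ℕ) : ℝ) = ((M * M + 2 * M : ℕ) : ℝ) :=
    Real.mul_self_sqrt (Nat.cast_nonneg _)
  unfold KG
  push_cast at h ⊢
  linear_combination h / 2

theorem KG_irr {M : ℕ} (hM : 1 ≤ M) (h a t : ℤ) (ht : 1 ≤ t) :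
    (h : ℝ) - 2 * KG M / M * t ≠ a := by
  intro hc
  have hirr : Irrational (√((M * M + 2 * M : ℕ) : ℝ)) := by
    rw [irrational_sqrt_natCast_iff]
    rintro ⟨r, hr⟩
    have h1 : M < r := by
      by_contra hlt
      have := Nat.mul_le_mul (not_lt.1 hlt) (not_lt.1 hlt)
      omega
    have h2 := Nat.mul_le_mul h1 h1
    have h3 : (M + 1) * (M + 1) = M * M + 2 * M + 1 := by ring
    have h4 : M.succ * M.succ = (M + 1) * (M + 1) := rfl
    omega
  have ht' : (t : ℝ) ≠ 0 := by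
    have : t ≠ 0 := by omega
    exact_mod_cast this
  have hM' : (M : ℝ) ≠ 0 := by
    have : M ≠ 0 := by omega
    exact_mod_cast this
  apply hirr
  refine ⟨(M : ℚ) * (((h : ℚ) - a) / t - 1), ?_⟩
  have h1 : √((M * M + 2 * M : ℕ) : ℝ) = 2 * KG M - M := by unfold KG; ring
  rw [h1]
  push_cast
  have h2 : (h : ℝ) - a = 2 * KG M / M * t := by linarith
  rw [h2]
  field_simp

section

variable {M h m : ℕ} {f : (ℤ × ℤ) →₀ ℚ}

theorem sup_bd (hM : 1 ≤ M) {p : ℤ × ℤ} (hp : p ∈ ABG M h) : (p.2 : ℝ) ≤ h ∧ 0 ≤ p.1 := by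
  obtain ⟨h1, h2, h3⟩ := hp
  have hK := KG_bd hM
  have hM' : (0 : ℝ) < M := by exact_mod_cast hM
  have h4 : (p.2 : ℝ) ≤ h := by
    by_contra hc
    have h5 : (M : ℝ) * ((h : ℝ) - p.2) < 0 :=
      mul_neg_of_pos_of_neg hM' (by linarith [not_le.1 hc])
    have e : (M : ℝ) * ((h : ℝ) - p.2) =
      KG M * ((h : ℝ) - p.2) - (KG M - M) * ((h : ℝ) - p.2) := by ring
    linarith
  refine ⟨h4, ?_⟩
  have h6 : 0 ≤ (KG M - M) * ((h : ℝ) - p.2) :=
    mul_nonneg (by linarith [hK.1]) (by linarith)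
  have h5 : (0 : ℝ) ≤ p.1 := by linarith
  exact_mod_cast h5

theorem wc_ne (hM : 1 ≤ M) (hf : (↑f.support : Set (ℤ × ℤ)) ⊆ ABG M h) {t : ℤ} {k : ℕ}
    (hw : wc f t k ≠ 0) : (t : ℝ) + KG M * k ≤ KG M * h := by
  unfold wc Finsupp.sum at hw
  obtain ⟨p, hp, hne⟩ := Finset.exists_ne_zero_of_sum_ne_zero hw
  have hp' := hf hp
  have hK := KG_bd hM
  have hM' : (0 : ℝ) < M := by exact_mod_cast hM
  by_cases ht : p.1 = t
  · simp only [ht, if_true] at hne
    have h1 : p.2.toNat.choose k ≠ 0 := by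
      intro h0
      rw [h0] at hne
      simp at hne
    have h2 : k ≤ p.2.toNat := by
      by_contra hc
      exact h1 (Nat.choose_eq_zero_of_lt (not_le.1 hc))
    have h3 : (k : ℤ) ≤ p.2 := by
      have := hp'.1
      omega
    have h4 : (k : ℝ) ≤ p.2 := by exact_mod_cast h3
    have h5 := hp'.2.2
    rw [ht] at h5
    have h6 : KG M * k ≤ KG M * p.2 := mul_le_mul_of_nonneg_left h4 (by linarith [hK.1])
    have h7 : KG M * ((h : ℝ) - p.2) = KG M * h - KG M * p.2 := by ring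
    linarith
  · simp only [ht, if_false, ne_eq, not_true_eq_false] at hne

theorem zero_off (hf : (↑f.support : Set (ℤ × ℤ)) ⊆ ABG M h) {p : ℤ × ℤ} (hp : p ∉ ABG M h) :
    f p = 0 := by
  by_contra hc
  exact hp (hf (Finsupp.mem_support_iff.2 hc))

theorem nn (hf : (↑f.support : Set (ℤ × ℤ)) ⊆ ABG M h) : ∀ p ∈ f.support, 0 ≤ p.2 :=
  fun _ hp => (hf hp).1

/-- a column -/
theorem col_zero (hM : 1 ≤ M) (hf : (↑f.support : Set (ℤ × ℤ)) ⊆ ABG M h)
    (h0 : f (0, (h : ℤ)) = 0) (i : ℕ)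
    (hw : ∀ (t : ℤ) (k : ℕ), (k : ℤ) < t + i → wc f t k = 0) (t : ℤ) (ht : t ≤ i) :
    colp f t = 0 := by
  have hK := KG_bd hM
  have hs := KG_sq M
  have hM' : (0 : ℝ) < M := by exact_mod_cast hM
  rcases lt_trichotomy t 0 with h1 | h1 | h1
  · ext j
    rw [colp_coeff f (nn hf), coeff_zero]
    refine zero_off hf fun hc => ?_
    have := (sup_bd hM hc).2
    simp only at this
    omega
  · subst h1
    ext j
    rw [colp_coeff f (nn hf), coeff_zero]
    by_cases hj : (j : ℤ) = h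
    · rw [hj, h0]
    · refine zero_off hf fun hc => hj ?_
      have h2 := (sup_bd hM hc).1
      obtain ⟨-, h3, h4⟩ := hc
      simp only [Int.cast_natCast, Int.cast_zero] at h2 h3 h4
      have h5 : (h : ℝ) ≤ j := by
        by_contra hlt
        have h6 : 0 < (KG M - M) * ((h : ℝ) - j) :=
          mul_pos (by linarith [hK.1]) (by linarith [not_le.1 hlt])
        linarith
      have h6 : (j : ℝ) = h := le_antisymm h2 h5
      exact_mod_cast h6
  · obtain ⟨s, rfl⟩ : ∃ s : ℕ, t = s := ⟨t.toNat, by omega⟩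
    have hs1 : (1 : ℝ) ≤ s := by exact_mod_cast h1
    refine van _ ⌈(h : ℝ) - 2 * KG M / M * s⌉₊ (2 * s) ?_ ?_ ?_
    · intro j hj
      rw [colp_coeff f (nn hf)]
      refine zero_off hf fun hc => ?_
      rw [Nat.lt_ceil] at hj
      obtain ⟨-, h3, h4⟩ := hc
      simp only [Int.cast_natCast] at h3 h4
      have h5 : 2 * KG M / M * s < h - j := by linarith
      have h6 : (KG M - M) * (2 * KG M / M * s) < (KG M - M) * (h - j) :=
        mul_lt_mul_of_pos_left h5 (by linarith [hK.1])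
      have h7 : (KG M - M) * (2 * KG M / M * s) = s := by
        have : (KG M - M) * (2 * KG M / M * s) = (2 * KG M * (KG M - M)) / M * s := by ring
        rw [this, hs, div_self hM'.ne', one_mul]
      rw [h7] at h6
      linarith
    · intro k hk
      rw [colp_taylor]
      exact hw _ _ (by omega)
    · intro j hj
      rw [colp_coeff f (nn hf)]
      refine zero_off hf fun hc => ?_
      have hle := Nat.le_ceil ((h : ℝ) - 2 * KG M / M * s)
      have hne := KG_irr hM h ((⌈(h : ℝ) - 2 * KG M / M * s⌉₊ : ℕ) : ℤ) s h1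
      simp only [Int.cast_natCast] at hne
      have hlt := lt_of_le_of_ne hle hne
      have hj' : ((⌈(h : ℝ) - 2 * KG M / M * s⌉₊ : ℕ) : ℝ) + 2 * s ≤ j := by exact_mod_cast hj
      obtain ⟨-, h3, h4⟩ := hc
      simp only [Int.cast_natCast] at h3 h4
      have h5 : (h : ℝ) - j < (2 * KG M / M - 2) * s := by linarith
      have h6 : KG M * ((h : ℝ) - j) < KG M * ((2 * KG M / M - 2) * s) :=
        mul_lt_mul_of_pos_left h5 (by linarith [hK.1])
      have h7 : KG M * ((2 * KG M / M - 2) * s) = s := by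
        have : KG M * ((2 * KG M / M - 2) * s) = (2 * KG M * (KG M - M)) / M * s := by
          field_simp
        rw [this, hs, div_self hM'.ne', one_mul]
      rw [h7] at h6
      linarith

theorem ph_pos (hM : 1 ≤ M) (hd1 : KG M * h - (KG M + 1) * m < 1 / 2)
    (hf : (↑f.support : Set (ℤ × ℤ)) ⊆ ABG M h)
    (hH : ∀ b < m, ∀ c : ℤ, ⌊KG M * h - (KG M + 1) * (b : ℝ)⌋ < c + ((M : ℤ) + 2) * ((m : ℤ) - b) →
      tc f c b = 0)
    (c : ℤ) (hc : 0 < c) : ph f c = 0 := by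
  have hK := KG_bd hM
  have hM' : (0 : ℝ) < M := by exact_mod_cast hM
  have hc1 : (1 : ℝ) ≤ c := by exact_mod_cast hc
  refine van _ 0 m (fun k hk => absurd hk (Nat.not_lt_zero k)) ?_ ?_
  · intro b hb
    rw [ph_taylor]
    refine hH b hb c ?_
    rw [Int.floor_lt]
    push_cast
    have hb' : (b : ℝ) < m := by exact_mod_cast hb
    have h1 : 0 ≤ ((M : ℝ) + 1 - KG M) * ((m : ℝ) - b) :=
      mul_nonneg (by linarith [hK.2]) (by linarith)
    have e : (c : ℝ) + ((M : ℝ) + 2) * ((m : ℝ) - b) - (KG M * h - (KG M + 1) * b) =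
        c - (KG M * h - (KG M + 1) * m) + ((M : ℝ) + 1 - KG M) * ((m : ℝ) - b) := by ring
    linarith
  · intro k hk
    rw [zero_add] at hk
    rw [ph_coeff]
    by_contra hne
    have h1 := wc_ne hM hf hne
    push_cast at h1
    have hk' : (m : ℝ) ≤ k := by exact_mod_cast hk
    have h2 : (KG M + 1) * m ≤ (KG M + 1) * k :=
      mul_le_mul_of_nonneg_left hk' (by linarith [hK.1])
    have e : (KG M + 1) * (k : ℝ) = KG M * k + k := by ring
    linarith

theorem ph_step (hM : 1 ≤ M) (hd0 : 0 ≤ KG M * h - (KG M + 1) * m)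
    (hd1 : KG M * h - (KG M + 1) * m < 1 / 2)
    (hf : (↑f.support : Set (ℤ × ℤ)) ⊆ ABG M h) (h0 : f (0, (h : ℤ)) = 0)
    (hH : ∀ b < m, ∀ c : ℤ, ⌊KG M * h - (KG M + 1) * (b : ℝ)⌋ < c + ((M : ℤ) + 2) * ((m : ℤ) - b) →
      tc f c b = 0)
    (i : ℕ) (ih : ∀ c : ℤ, -(i : ℤ) < c → ph f c = 0) : ph f (-(i : ℤ)) = 0 := by
  have hK := KG_bd hM
  have hs := KG_sq M
  have hM' : (0 : ℝ) < M := by exact_mod_cast hM
  have hw : ∀ (t : ℤ) (k : ℕ), (k : ℤ) < t + i → wc f t k = 0 := by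
    intro t k hk
    have h1 := ph_coeff f (t - k) k
    rw [ih (t - k) (by omega), coeff_zero, sub_add_cancel] at h1
    exact h1.symm
  have hw2 : ∀ (t : ℤ) (k : ℕ), t ≤ i → wc f t k = 0 := by
    intro t k ht
    rw [← colp_taylor, col_zero hM hf h0 i hw t ht, map_zero, coeff_zero]
  set d : ℝ := KG M * h - (KG M + 1) * m with hd
  set J : ℕ := ⌊((i : ℝ) + d) / ((M : ℝ) + 1 - KG M)⌋₊ with hJ
  have hu : 0 < (M : ℝ) + 1 - KG M := by linarith [hK.2]
  have hw0 : 0 < KG M + 1 := by linarith [hK.1]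
  have hi0 : (0 : ℝ) ≤ i := Nat.cast_nonneg i
  have huw : ((M : ℝ) + 1 - KG M) * (KG M + 1) = ((M : ℝ) + 2) / 2 := by
    linear_combination (-1 / 2 : ℝ) * hs
  have hJ1 : (J : ℝ) ≤ ((i : ℝ) + d) / ((M : ℝ) + 1 - KG M) := Nat.floor_le (by positivity)
  have hJ2 : ((i : ℝ) + d) / ((M : ℝ) + 1 - KG M) < J + 1 := Nat.lt_floor_add_one _
  rw [le_div_iff₀ hu] at hJ1
  rw [div_lt_iff₀ hu] at hJ2
  refine van _ (2 * i + 1) (m - J) ?_ ?_ ?_
  · intro k hk
    rw [ph_coeff]
    exact hw2 _ _ (by omega)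
  · intro b hb
    rw [ph_taylor]
    refine hH b (by omega) _ ?_
    rw [Int.floor_lt]
    push_cast
    have hb' : (b : ℝ) + J + 1 ≤ m := by
      have : b + J + 1 ≤ m := by omega
      exact_mod_cast this
    have h1 : ((J : ℝ) + 1) * ((M : ℝ) + 1 - KG M) ≤ ((m : ℝ) - b) * ((M : ℝ) + 1 - KG M) :=
      mul_le_mul_of_nonneg_right (by linarith) hu.le
    have e : -(i : ℝ) + ((M : ℝ) + 2) * ((m : ℝ) - b) - (KG M * h - (KG M + 1) * b) =
        ((m : ℝ) - b) * ((M : ℝ) + 1 - KG M) - (i + d) := by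
      rw [hd]; ring
    linarith
  · intro k hk
    rw [ph_coeff]
    by_contra hne
    have h1 := wc_ne hM hf hne
    push_cast at h1
    have hk' : (2 * (i : ℝ) + 1) + m ≤ k + J := by
      have : 2 * i + 1 + m ≤ k + J := by omega
      exact_mod_cast this
    have h2 : ((k : ℝ) - m) * (KG M + 1) ≤ i + d := by
      have e : ((k : ℝ) - m) * (KG M + 1) = KG M * k + k - (KG M + 1) * m := by ring
      rw [hd, e]; linarith
    have h3 : (J : ℝ) * (((M : ℝ) + 2) / 2) ≤ (i + d) * (KG M + 1) := by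
      rw [← huw]
      have := mul_le_mul_of_nonneg_right hJ1 hw0.le
      linarith
    have h4 : ((k : ℝ) - m) * (((M : ℝ) + 2) / 2) ≤ (i + d) * ((M : ℝ) + 1 - KG M) := by
      rw [← huw]
      have := mul_le_mul_of_nonneg_right h2 hu.le
      linarith
    have h5 : ((J : ℝ) + k - m) * (((M : ℝ) + 2) / 2) ≤ (2 * (i + d)) * (((M : ℝ) + 2) / 2) := by
      have e : (2 * ((i : ℝ) + d)) * (((M : ℝ) + 2) / 2) =
        (i + d) * (KG M + 1) + (i + d) * ((M : ℝ) + 1 - KG M) := by ring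
      rw [e]
      linarith
    have h6 := le_of_mul_le_mul_right h5 (by positivity)
    linarith

end

end B2G82

open B2G82 in
theorem apexfreeG {M h m : ℕ} (hM : 1 ≤ M) (hd0 : 0 ≤ KG M * h - (KG M + 1) * m)
    (hd1 : KG M * h - (KG M + 1) * m < 1 / 2)
    {f : (ℤ × ℤ) →₀ ℚ} (hf : (↑f.support : Set (ℤ × ℤ)) ⊆ ABG M h) (h0 : f (0, (h : ℤ)) = 0)
    (hH : ∀ b < m, ∀ c : ℤ, ⌊KG M * h - (KG M + 1) * (b : ℝ)⌋ < c + ((M : ℤ) + 2) * ((m : ℤ) - b) →
      tc f c b = 0) :
    f = 0 := by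
  have hneg : ∀ i : ℕ, ph f (-(i : ℤ)) = 0 := by
    intro i
    induction i using Nat.strong_induction_on with
    | _ i ih =>
      refine ph_step hM hd0 hd1 hf h0 hH i fun c hc => ?_
      rcases lt_or_ge 0 c with h1 | h1
      · exact ph_pos hM hd1 hf hH c h1
      · have h2 := ih (-c).toNat (by omega)
        have h3 : -(((-c).toNat : ℕ) : ℤ) = c := by omega
        rw [h3] at h2
        exact h2
  have hall : ∀ c : ℤ, ph f c = 0 := by
    intro c
    rcases lt_or_ge 0 c with h1 | h1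
    · exact ph_pos hM hd1 hf hH c h1
    · have h2 := hneg (-c).toNat
      have h3 : -(((-c).toNat : ℕ) : ℤ) = c := by omega
      rw [h3] at h2
      exact h2
  have hwc : ∀ (t : ℤ) (k : ℕ), wc f t k = 0 := by
    intro t k
    have h1 := ph_coeff f (t - k) k
    rw [hall (t - k), coeff_zero, sub_add_cancel] at h1
    exact h1.symm
  have hcol : ∀ t : ℤ, colp f t = 0 := by
    intro t
    apply taylor_injective (1 : ℚ)
    ext k
    rw [colp_taylor, hwc, map_zero, coeff_zero]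
  ext p
  rw [Finsupp.coe_zero, Pi.zero_apply]
  by_contra hp
  have h1 := hf (Finsupp.mem_support_iff.2 hp)
  have h2 := colp_coeff f (nn hf) p.1 p.2.toNat
  rw [hcol, coeff_zero, Int.toNat_of_nonneg h1.1] at h2
  exact hp h2.symm

end Pool.Agent.E8helper80.AX
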